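import Mathlib
import Pool.Agent.Lib.MP_12983e_an.Cases

/-! # Continuous solutions of `f (x + f x) = f x + f (f x)`

A function `f : ℝ → ℝ` is continuous and satisfies `f (x + f x) = f x + f (f x)` for all real `x`
if and only if either `f x = a x` for all `x`, with some real constant `a`, or
`f x = a x` for `x ≥ 0` and `f x = b x` for `x < 0`, with some constants `a, b ≥ 0`.
No differentiability is assumed. -/

namespace Pool.Agent.Results.MP_12983e_an.Classification

open Pool.Agent.Lib.MP12983e

/-- Complete list of the continuous solutions of `f (x + f x) = f x + f (f x)`. -/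
theorem result (f : ℝ → ℝ) :
    (Continuous f ∧ ∀ x : ℝ, f (x + f x) = f x + f (f x)) ↔
      ((∃ a : ℝ, ∀ x : ℝ, f x = a * x) ∨
        ∃ a b : ℝ, 0 ≤ a ∧ 0 ≤ b ∧ ∀ x : ℝ, f x = if 0 ≤ x then a * x else b * x) := by
  constructor
  · intro h
    exact classification h
  · rintro (⟨a, ha⟩ | ⟨a, b, ha, hb, hab⟩)
    · have hf : f = fun x => a * x := funext ha
      refine ⟨by rw [hf]; fun_prop, fun x => ?_⟩
      simp only [ha]
      ring
    · have hf : f = fun x => if 0 ≤ x then a * x else b * x := funext hab
      have hp : ∀ x, 0 ≤ x → f x = a * x := fun x hx => by rw [hab, if_pos hx]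
      have hn : ∀ x, x ≤ 0 → f x = b * x := by
        intro x hx
        rcases eq_or_lt_of_le hx with h0 | h0
        · rw [h0, hp 0 le_rfl]; ring
        · rw [hab, if_neg (not_le.mpr h0)]
      refine ⟨?_, fun x => ?_⟩
      · rw [hf]
        apply Continuous.if_le (by fun_prop) (by fun_prop) continuous_const continuous_id
        intro x hx
        have : x = 0 := hx.symm
        rw [this]; ring
      · rcases le_total 0 x with h0 | h0
        · have h1 : 0 ≤ a * x := mul_nonneg ha h0
          rw [hp x h0, hp _ h1, hp (x + a * x) (by linarith)]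
          ring
        · have h1 : b * x ≤ 0 := mul_nonpos_of_nonneg_of_nonpos hb h0
          rw [hn x h0, hn _ h1, hn (x + b * x) (by linarith)]
          ring

end Pool.Agent.Results.MP_12983e_an.Classification
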